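import Mathlib
import Pool.Agent.Work.MP_2fa4be_gt.Defs
import Pool.Agent.Work.MP_2fa4be_gt.Main

/-!
# Band width for twisted and conformal product metrics, in every dimension

Let `M` be a compact smooth manifold without boundary of dimension `m ≥ 2`, let `n = m + 1`, let `h`
be a smooth Riemannian metric on `M`, `N > 0` a smooth function on `M`, `f` a smooth function on
`M × (-1, 1)` and `0 ≤ β ≤ 1` with `4 β ≤ n`. If the metric
`g = N² exp(2 β f) dt² + exp(2 f) h` on `M × (-1, 1)` has scalar curvature at least `n (n - 1)`, and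
if `M` has no metric of positive scalar curvature (it is enough that the conformal class of `h` has
none), then some vertical segment `{x} × (-1, 1)` has `g`-length at most `2 π / n`.

Proof: if all vertical segments are longer, put `φ = (1/q) log Σ_k η_k exp(q f(·, τ_k))` with
`q = n/2 + β - 2` for suitable times `τ_k` and weights `η_k`; then the metric `exp(2 ψ) h` with
`ψ = (1 + β/(m-1)) φ + (1/(m-1)) log N` has positive scalar curvature.
-/

namespace Pool.Agent.Results.MP_2fa4be_gt.ConformalBands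

open Pool.Agent.Work.MP_2fa4be_gt
open scoped Manifold ContDiff

theorem result {m : ℕ} {M : Type*} [TopologicalSpace M] [ChartedSpace (Eu m) M]
    [IsManifold (𝓡 m) ∞ M] [CompactSpace M] (hm : 2 ≤ m) (h : RMetric m M)
    (hM : ¬ AdmitsPSC m M ∨ ¬ ConfPSC h)
    {N : M → ℝ} (hN : SmoothFun m N) (hN0 : ∀ x, 0 < N x)
    {β : ℝ} (hβ0 : 0 ≤ β) (hβ1 : β ≤ 1) (hβm : 4 * β ≤ (m : ℝ) + 1)
    {f : M × ℝ → ℝ} (hf : SmoothBand m f)
    (hs : ∀ x, ∀ t ∈ Set.Ioo (-1 : ℝ) 1, ((m : ℝ) + 1) * m ≤ bandScal h N β f x t) :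
    ∃ x, segLen N β f x ≤ ENNReal.ofReal (2 * Real.pi / ((m : ℝ) + 1)) := by
  have h1 : ¬ ConfPSC h := by
    rcases hM with h1 | h1
    · exact fun h2 => h1 h2.admits
    · exact h1
  exact main hm h hN hN0 hβ0 hβ1 hβm hf hs h1

end Pool.Agent.Results.MP_2fa4be_gt.ConformalBands
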