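import Mathlib
import Pool.Agent.Work.MP_2fa4be_gt.Defs
import Pool.Agent.Work.MP_2fa4be_gt.MB.Defs
import Pool.Agent.Work.MP_2fa4be_gt.MB.Main

/-!
# Band width for static multiply twisted metrics, in every dimension

Let `M` be a compact manifold without boundary of dimension `m`, `n = m + 1`, which is locally a
product: the coordinates are divided into blocks, and all changes of charts respect the blocks. Let
`h t`, `-1 < t < 1`, be a smooth path of metrics which are block diagonal, such that each block
`(h t)_K` has nonpositive scalar curvature along the leaves of label `K` and a determinant which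
depends neither on `t` nor on the coordinates of the other blocks. Let `N > 0` be smooth on `M` and
`v_K` arbitrary smooth functions on `M × (-1, 1)`, and suppose that every block has dimension at
least `2` (or that `v_K` is constant along the leaves of label `K`). If the metric
`g = N(x)² dt² + ∑_K exp(2 v_K(x,t)) (h t)_K` has scalar curvature at least `n (n - 1)` then some
vertical segment `{x} × (-1, 1)`, whose length is `2 N(x)`, has length at most `2 π / n`.

Proof: let `μ` be the common volume measure of the metrics `h t` and `D = ∑_i v_{b(i)}`. The scalar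
curvature of `g` is bounded by a sum over the blocks minus `N⁻² (2 D'' + (1 + 1/m) D'²)`; after
integration with respect to the fixed measure `μ` and integration by parts along the leaves, the
sum over the blocks becomes minus a sum of squares. So the average of `D'` satisfies a Riccati
inequality, whose solutions live for a time at most `2 π / (n min N)`.
-/

namespace Pool.Agent.Results.MP_2fa4be_gt.MultiplyTwistedBands

open Pool.Agent.Work.MP_2fa4be_gt Pool.Agent.Work.MP_2fa4be_gt.MB
open scoped Manifold ContDiff

theorem result {m r : ℕ} {M : Type*} [TopologicalSpace M] [ChartedSpace (Eu m) M]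
    [IsManifold (𝓡 m) ∞ M] [CompactSpace M] [T2Space M] [Nonempty M] (hm : 0 < m)
    (b : Fin m → Fin r) (hA : BlockAtlas b M) (h : ℝ → RMetric m M) (hh : BlockPath b h)
    {N : M → ℝ} (hN : SmoothFun m N) (hN0 : ∀ x, 0 < N x)
    {v : Fin r → M × ℝ → ℝ} (hv : ∀ K, SmoothBand m (v K))
    (hK : ∀ K, 2 ≤ Fintype.card {i // b i = K} ∨ LeafConst b K (v K))
    (hs : ∀ x, ∀ t ∈ Set.Ioo (-1 : ℝ) 1, ((m : ℝ) + 1) * m ≤ mbScal b h N v x t) :
    ∃ x, 2 * N x ≤ 2 * Real.pi / ((m : ℝ) + 1) :=
  main hm hA hh hN hN0 hv hK hs

end Pool.Agent.Results.MP_2fa4be_gt.MultiplyTwistedBands
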